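import Mathlib
import Pool.Graph.R_pool_sql_team_seeded_1e53cb71.Helper96K9.MGN.K
import Pool.Graph.R_seed8.Helper639.ForceCH

/-!
# MP_a0ad85_lc: consistently, a minimally generated Boolean algebra has the Nikodym property but
not the strong Nikodym property

First part: some notion of forcing preserves `ω₁` and forces Jensen's principle `◊` (the forcing
language is the one of `Pool.Agent.Helper639.ForceCH`).
Second part: `◊` gives an infinite minimally generated Boolean algebra which has the Nikodym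
property and fails the strong Nikodym property. So a positive answer to Q1 is not a theorem of ZFC.
-/

set_option autoImplicit false

namespace Pool.Agent.Results.MP_a0ad85_lc.ConsistentlyNotStrong

open Set Cardinal Order
open Pool.Agent.Helper639.ForceCH (Om OmegaOnePreserved DiamondHolds)

/-- `C` is a closed unbounded subset of `ω₁` (the sentence named by `IsClubName`). -/
def IsClubSet (C : Om → Prop) : Prop :=
  (∀ a : Om, ∃ b : Om, a < b ∧ C b) ∧
    ∀ a : Om, (∃ b, b < a) → (∀ b : Om, b < a → ∃ c : Om, (b < c ∧ c < a) ∧ C c) → C a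

/-- Jensen's principle `◊`: the sentence which `DiamondHolds P` says is forced, evaluated in the
universe. -/
def Diamond : Prop :=
  ∃ A : Om → Om → Prop, ∀ S : Om → Prop, ∀ C : Om → Prop,
    IsClubSet C → ∃ a : Om, C a ∧ ∀ b : Om, b < a → (S b ↔ A a b)

/-- The total variation of `μ` is at most `K`: for every finite partition of the unit, that is,
every finite set of pairwise disjoint elements with supremum `⊤`, the sum of `|μ x|` over its
members is at most `K`. -/
def VariationLE {B : Type} [BooleanAlgebra B] (μ : B → ℝ) (K : ℝ) : Prop :=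
  ∀ s : Finset B, (∀ x ∈ s, ∀ y ∈ s, x ≠ y → Disjoint x y) → s.sup id = ⊤ →
    ∑ x ∈ s, |μ x| ≤ K

/-- Measures: finitely additive real valued functions of bounded variation. -/
def IsMeasure {B : Type} [BooleanAlgebra B] (μ : B → ℝ) : Prop :=
  (∀ x y, Disjoint x y → μ (x ⊔ y) = μ x + μ y) ∧ ∃ K : ℝ, VariationLE μ K

/-- The Nikodym property: every pointwise bounded sequence of measures is bounded in norm. -/
def NikodymProperty (B : Type) [BooleanAlgebra B] : Prop :=
  ∀ μ : ℕ → B → ℝ, (∀ n, IsMeasure (μ n)) → (∀ x, ∃ K : ℝ, ∀ n, |μ n x| ≤ K) →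
    ∃ K : ℝ, ∀ n, VariationLE (μ n) K

/-- The strong Nikodym property: for every increasing sequence of subsets `D n` with union `B`
there is `n₀` such that every sequence of measures that is pointwise bounded on `D n₀` is bounded
in norm. -/
def StrongNikodymProperty (B : Type) [BooleanAlgebra B] : Prop :=
  ∀ D : ℕ → Set B, Monotone D → (⋃ n, D n) = Set.univ →
    ∃ n₀, ∀ μ : ℕ → B → ℝ, (∀ n, IsMeasure (μ n)) → (∀ x ∈ D n₀, ∃ K : ℝ, ∀ n, |μ n x| ≤ K) →
      ∃ K : ℝ, ∀ n, VariationLE (μ n) K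

/-- `B` is minimally generated: there are an ordinal `δ` and a chain of subalgebras `F α`,
`α < δ`, with `F 0 = {⊥, ⊤}`, unions at limits, `F (α + 1)` a minimal extension of `F α` whenever
`α + 1 < δ`, and union `B`. -/
def MinimallyGenerated (B : Type) [BooleanAlgebra B] : Prop :=
  ∃ (δ : Ordinal.{0}) (F : Ordinal.{0} → BooleanSubalgebra B),
    0 < δ ∧ (F 0 : Set B) = {⊥, ⊤} ∧
    (∀ l < δ, Order.IsSuccLimit l → ∀ x, x ∈ F l ↔ ∃ α < l, x ∈ F α) ∧
    (∀ α, Order.succ α < δ → F α < F (Order.succ α) ∧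
      ¬ ∃ D : BooleanSubalgebra B, F α < D ∧ D < F (Order.succ α)) ∧
    (∀ α β, α ≤ β → β < δ → F α ≤ F β) ∧
    ∀ x, ∃ α < δ, x ∈ F α

theorem dia_of_diamond (h : Diamond) : Pool.Agent.Helper96K9.MGN.Diamond := by
  obtain ⟨A, hA⟩ := h
  have key : ∀ o : Ordinal.{0}, (∀ β < o, Order.succ β < o) →
      (∃ A : o.ToType → o.ToType → Prop, ∀ S : o.ToType → Prop, ∀ C : o.ToType → Prop,
        ((∀ a : o.ToType, ∃ b : o.ToType, a < b ∧ C b) ∧
          ∀ a : o.ToType, (∃ b, b < a) →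
            (∀ b : o.ToType, b < a → ∃ c : o.ToType, (b < c ∧ c < a) ∧ C c) → C a) →
          ∃ a : o.ToType, C a ∧ ∀ b : o.ToType, b < a → (S b ↔ A a b)) →
      ∃ D : Ordinal.{0} → Set Ordinal.{0}, (∀ α < o, D α ⊆ Iio α) ∧
        ∀ S ⊆ Iio o, ∀ C : Set Ordinal.{0}, (C ⊆ Iio o ∧ (∀ β < o, ∃ γ ∈ C, β ≤ γ) ∧
          ∀ γ < o, 0 < γ → (∀ β < γ, ∃ δ ∈ C, β < δ ∧ δ < γ) → γ ∈ C) →
          ∃ α ∈ C, S ∩ Iio α = D α := by
    rintro o ho ⟨A, hA⟩
    let e : Iio o ≃o o.ToType := Ordinal.ToType.mk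
    refine ⟨fun α => {β | ∃ (h1 : β < α) (h2 : α < o), A (e ⟨α, h2⟩) (e ⟨β, h1.trans h2⟩)},
      fun α _ β hβ => hβ.1, fun S hS C hC => ?_⟩
    obtain ⟨hC0, hC1, hC2⟩ := hC
    have c1 : ∀ a : o.ToType, ∃ b : o.ToType, a < b ∧ (e.symm b).1 ∈ C := by
      intro a
      obtain ⟨γ, hγ, hγ'⟩ := hC1 _ (ho (e.symm a).1 (e.symm a).2)
      refine ⟨e ⟨γ, hC0 hγ⟩, ?_, ?_⟩
      · rw [← e.symm.lt_iff_lt, e.symm_apply_apply]
        exact (Order.lt_succ (e.symm a).1).trans_le hγ'
      · rw [e.symm_apply_apply]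
        exact hγ
    have c2 : ∀ a : o.ToType, (∃ b, b < a) →
        (∀ b : o.ToType, b < a → ∃ c : o.ToType, (b < c ∧ c < a) ∧ (e.symm c).1 ∈ C) →
        (e.symm a).1 ∈ C := by
      rintro a ⟨b0, hb0⟩ h3
      refine hC2 _ (e.symm a).2 ((zero_le (a := ((e.symm b0).1 : Ordinal.{0}))).trans_lt (e.symm.lt_iff_lt.2 hb0)) ?_
      intro β hβ
      have h5 : β < o := lt_trans hβ (e.symm a).2
      obtain ⟨c, ⟨hc1, hc2⟩, hc3⟩ := h3 (e ⟨β, h5⟩) (by
        rw [← e.symm.lt_iff_lt, e.symm_apply_apply]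
        exact hβ)
      refine ⟨(e.symm c).1, hc3, ?_, e.symm.lt_iff_lt.2 hc2⟩
      rw [← e.symm.lt_iff_lt, e.symm_apply_apply] at hc1
      exact hc1
    obtain ⟨a, h1, h2⟩ := hA (fun b => (e.symm b).1 ∈ S) (fun b => (e.symm b).1 ∈ C) ⟨c1, c2⟩
    refine ⟨(e.symm a).1, h1, ?_⟩
    have ha : e ⟨(e.symm a).1, (e.symm a).2⟩ = a := e.apply_symm_apply a
    ext β
    constructor
    · rintro ⟨h3, h4⟩
      have h4' : β < (e.symm a).1 := h4
      have h5 : β < o := h4'.trans (e.symm a).2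
      refine ⟨h4', (e.symm a).2, ?_⟩
      rw [ha]
      refine (h2 (e ⟨β, h5⟩) ?_).1 ?_
      · rw [← e.symm.lt_iff_lt, e.symm_apply_apply]
        exact h4'
      · rw [e.symm_apply_apply]
        exact h3
    · rintro ⟨h3, h4, h5⟩
      rw [ha] at h5
      refine ⟨?_, h3⟩
      have h6 := (h2 (e ⟨β, h3.trans h4⟩) (by
        rw [← e.symm.lt_iff_lt, e.symm_apply_apply]
        exact h3)).2 h5
      rwa [e.symm_apply_apply] at h6
  have h1 : (Ordinal.omega 1 : Ordinal.{0}) = (ℵ₁ : Cardinal.{0}).ord := by simp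
  have h2 : ∀ β < (Ordinal.omega 1 : Ordinal.{0}), Order.succ β < Ordinal.omega 1 := by
    rw [h1]
    exact fun β hβ => (Cardinal.isSuccLimit_ord (Cardinal.aleph0_le_aleph 1)).succ_lt hβ
  refine key _ h2 ?_
  rw [h1]
  exact ⟨A, hA⟩

/-- **It is consistent that some minimally generated Boolean algebra has the Nikodym property but
not the strong Nikodym property.** -/
theorem result :
    (∃ (P : Type) (_ : Preorder P), Nonempty P ∧
      ∀ p : P, p ∈ OmegaOnePreserved P ∧ p ∈ DiamondHolds P) ∧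
    (Diamond → ∃ (B : Type) (_ : BooleanAlgebra B), Infinite B ∧
      MinimallyGenerated B ∧ NikodymProperty B ∧ ¬ StrongNikodymProperty B) := by
  refine ⟨?_, fun hd => ?_⟩
  · obtain ⟨P, i, hn, h⟩ := Pool.Agent.Helper639.ForceCH.exists_forcing
    exact ⟨P, i, hn, fun p => ⟨(h p).1, (h p).2.1⟩⟩
  · exact Pool.Agent.Helper96K9.MGN.main (dia_of_diamond hd)

end Pool.Agent.Results.MP_a0ad85_lc.ConsistentlyNotStrong
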